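import Pool.Agent.H860Z.PreimC

namespace Pool.Agent.Results.MP_2d1f13_nt.Counterexample

open Pool.Agent.H860Z.Preim

/-- For all `N ≥ 2` and `d ≥ 2` there are a maximal varying family of degree `d` endomorphisms of
projective `N`-space over the affine line and a marked point, all defined over `ℚ`, for which
property `(*)` fails: for every proper Zariski closed `V` there is `D ≥ 1` such that `ν_V(t, D)` is
unbounded over the parameters `t` of degree at most `D`. -/
theorem result (N d : ℕ) (hN : 2 ≤ N) (hd : 2 ≤ d) :
    ∃ (F : Tuple N) (hF : IsFamily d F) (a : MarkedPoint N), MaximalVarying F ∧ ¬ Star hF a :=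
  Pool.Agent.H860Z.Preim.main N d hN hd

end Pool.Agent.Results.MP_2d1f13_nt.Counterexample
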